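import Mathlib

/-!
# The order of `1 + x + x^(2^r) + x^(2^r+2)` over `F_2` is exactly `4^r + 2^r + 1`

Write `Q = 2^r`, `N = Q^2 + Q + 1`. Then `1 + x + x^Q + x^(Q+2) = (1 + x)(1 + x^Q + x^(Q+1))`. If `γ ≠ 0` lies in the
field `K` with `Q^3` elements and has trace `γ + γ^Q + γ^(Q^2) = 0` over the field with `Q` elements, then
`γ^(1-Q)` is a root of `1 + x^Q + x^(Q+1)`. Every `δ ≠ 0` in `K` is a quotient of two nonzero elements of trace `0`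
(two planes through the origin of a three-dimensional space meet). So if `x^e = 1` for all roots, then
`δ^((Q-1)e) = 1` for a generator `δ` of the multiplicative group of `K`, whence `N ∣ e`.
-/

namespace Pool.Agent.Results.MP_9cbaed_nt.ExactOrder

open Polynomial

/-- The order of a polynomial over `F_2` is `e`: `e` is the least positive integer with `f ∣ 1 + x^e`. -/
def HasOrder (f : (ZMod 2)[X]) (e : ℕ) : Prop := IsLeast {m : ℕ | 0 < m ∧ f ∣ 1 + X ^ m} e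

/-- the trace-zero argument -/
lemma key (r : ℕ) (hr : 1 ≤ r) (K : Type) [Field K] [Fintype K] [CharP K 2]
    (hcard : Fintype.card K = (2 ^ r) ^ 3) (e : ℕ)
    (h : ∀ γ : K, γ ≠ 0 → γ + γ ^ (2 ^ r) + γ ^ (2 ^ r * 2 ^ r) = 0 → (γ ^ (2 ^ r)) ^ e = γ ^ e) :
    4 ^ r + 2 ^ r + 1 ∣ e := by
  classical
  have : Fact (Nat.Prime 2) := ⟨Nat.prime_two⟩
  have hadd0 : ∀ x y : K, (x + y) ^ (2 ^ r) = x ^ (2 ^ r) + y ^ (2 ^ r) :=
    fun x y => add_pow_char_pow x y 2 r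
  have h4 : (4 : ℕ) ^ r = 2 ^ r * 2 ^ r := by
    rw [← mul_pow]; norm_num
  rw [h4]
  have hQ2 : 2 ≤ 2 ^ r := by
    calc 2 = 2 ^ 1 := by norm_num
      _ ≤ 2 ^ r := Nat.pow_le_pow_right (by norm_num) hr
  generalize 2 ^ r = Q at *
  have hadd : ∀ x y : K, (x - y) ^ Q = x ^ Q - y ^ Q := by
    intro x y
    have := hadd0 (x - y) y
    rw [sub_add_cancel] at this
    rw [this]; ring
  have hadd2 : ∀ x y : K, (x - y) ^ (Q * Q) = x ^ (Q * Q) - y ^ (Q * Q) := by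
    intro x y
    rw [pow_mul, hadd, hadd, ← pow_mul, ← pow_mul]
  have hfull : ∀ x : K, x ^ (Q * Q * Q) = x := by
    intro x
    have := FiniteField.pow_card x
    rw [hcard] at this
    rwa [show Q * Q * Q = Q ^ 3 by ring]
  let T : K → K := fun x => x + x ^ Q + x ^ (Q * Q)
  have hTsub : ∀ x y : K, T (x - y) = T x - T y := by
    intro x y
    simp only [T]
    rw [hadd, hadd2]; ring
  have hTfix : ∀ x : K, (T x) ^ Q = T x := by
    intro x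
    simp only [T]
    rw [hadd0, hadd0, ← pow_mul, ← pow_mul, hfull]
    ring
  let F : Finset K := Finset.univ.filter (fun x => x ^ Q = x)
  have hFcard : F.card ≤ Q := by
    have h1 : (X ^ Q - X : K[X]) ≠ 0 := FiniteField.X_pow_card_sub_X_ne_zero K (by omega)
    have h2 : F ⊆ (X ^ Q - X : K[X]).roots.toFinset := by
      intro x hx
      rw [Multiset.mem_toFinset, mem_roots h1, IsRoot.def]
      simp only [F, Finset.mem_filter, Finset.mem_univ, true_and] at hx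
      simp [hx]
    calc F.card ≤ _ := Finset.card_le_card h2
      _ ≤ Multiset.card (X ^ Q - X : K[X]).roots := Multiset.toFinset_card_le _
      _ ≤ (X ^ Q - X : K[X]).natDegree := card_roots' _
      _ = Q := FiniteField.X_pow_card_sub_X_natDegree_eq K (by omega)
  obtain ⟨δ, hδ⟩ := IsCyclic.exists_generator (α := Kˣ)
  have hord : orderOf δ = Q ^ 3 - 1 := by
    rw [orderOf_eq_card_of_forall_mem_zpowers hδ, Nat.card_eq_fintype_card, Fintype.card_units, hcard]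
  -- pigeonhole
  have hlt : (F ×ˢ F).card < (Finset.univ : Finset K).card := by
    rw [Finset.card_product, Finset.card_univ, hcard]
    calc F.card * F.card ≤ Q * Q := Nat.mul_le_mul hFcard hFcard
      _ < Q ^ 3 := by nlinarith [Nat.mul_le_mul hQ2 hQ2]
  obtain ⟨a, -, b, -, hab, hTab⟩ := Finset.exists_ne_map_eq_of_card_lt_of_maps_to hlt
    (f := fun x : K => (T x, T ((δ : K) * x))) (by
      intro x _
      simp only [Finset.coe_product, Set.mem_prod, Finset.mem_coe, F, Finset.mem_filter,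
        Finset.mem_univ, true_and]
      exact ⟨hTfix _, hTfix _⟩)
  rw [Prod.mk.injEq] at hTab
  have hγ : a - b ≠ 0 := sub_ne_zero.mpr hab
  have hT1 : T (a - b) = 0 := by rw [hTsub, hTab.1, sub_self]
  have hT2 : T ((δ : K) * (a - b)) = 0 := by rw [mul_sub, hTsub, hTab.2, sub_self]
  have h1 := h (a - b) hγ hT1
  have h2 := h ((δ : K) * (a - b)) (mul_ne_zero δ.ne_zero hγ) hT2
  rw [mul_pow, mul_pow, mul_pow, h1] at h2
  have h3 : ((δ : K) ^ Q) ^ e = (δ : K) ^ e := mul_right_cancel₀ (pow_ne_zero e hγ) h2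
  have h4' : δ ^ ((Q - 1) * e) = 1 := by
    have h5 : (δ ^ ((Q - 1) * e)) * δ ^ e = δ ^ e := by
      rw [← pow_add]
      have : (Q - 1) * e + e = Q * e := by
        have : Q = (Q - 1) + 1 := by omega
        nth_rewrite 2 [this]; ring
      rw [this]
      apply Units.ext
      push_cast
      rw [pow_mul]; exact h3
    exact mul_eq_right.mp h5
  have h6 : Q ^ 3 - 1 ∣ (Q - 1) * e := by
    rw [← hord]; exact orderOf_dvd_of_pow_eq_one h4'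
  have h7 : Q ^ 3 - 1 = (Q - 1) * (Q * Q + Q + 1) := by
    obtain ⟨m, rfl⟩ : ∃ m, Q = m + 1 := ⟨Q - 1, by omega⟩
    simp only [Nat.add_sub_cancel]
    have : (m + 1) ^ 3 = m * ((m + 1) * (m + 1) + (m + 1) + 1) + 1 := by ring
    omega
  rw [h7] at h6
  exact Nat.dvd_of_mul_dvd_mul_left (by omega) h6

variable (r : ℕ)

lemma two_eq_zero : (2 : (ZMod 2)[X]) = 0 := CharTwo.two_eq_zero

lemma fact1 : (1 + X + X ^ (2 ^ r) + X ^ (2 ^ r + 2) : (ZMod 2)[X]) =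
    (1 + X) * (1 + X ^ (2 ^ r) + X ^ (2 ^ r + 1)) := by
  linear_combination (-(X ^ (2 ^ r + 1)) : (ZMod 2)[X]) * two_eq_zero

lemma fact2 : (1 + X ^ 2 + X ^ (2 ^ r + 1) + X ^ (2 ^ r + 2) : (ZMod 2)[X]) =
    (1 + X) * (1 + X + X ^ (2 ^ r + 1)) := by
  linear_combination (-X : (ZMod 2)[X]) * two_eq_zero

lemma cop1 : IsCoprime (1 + X : (ZMod 2)[X]) (1 + X ^ (2 ^ r) + X ^ (2 ^ r + 1)) :=
  ⟨-X ^ (2 ^ r), 1, by ring⟩

lemma cop2 : IsCoprime (1 + X : (ZMod 2)[X]) (1 + X + X ^ (2 ^ r + 1)) := by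
  refine IsCoprime.symm ?_
  have : (1 + X + X ^ (2 ^ r + 1) : (ZMod 2)[X]) = X ^ (2 ^ r + 1) + (1 + X) * 1 := by ring
  rw [this]
  refine IsCoprime.add_mul_left_left ?_ 1
  refine IsCoprime.pow_left ?_
  exact ⟨-1, 1, by ring⟩

lemma frob (x y : (ZMod 2)[X]) : (x + y) ^ (2 ^ r) = x ^ (2 ^ r) + y ^ (2 ^ r) := by
  have : Fact (Nat.Prime 2) := ⟨Nat.prime_two⟩
  exact add_pow_char_pow x y 2 r

lemma lin_dvd (e : ℕ) : (1 + X : (ZMod 2)[X]) ∣ 1 + X ^ e := by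
  have h : (1 + X : (ZMod 2)[X]) = X - C 1 := by
    have h2 := two_eq_zero
    rw [C_1]
    linear_combination h2
  rw [h, dvd_iff_isRoot, IsRoot.def]
  simp
  decide

lemma dvd1 : (1 + X + X ^ (2 ^ r) + X ^ (2 ^ r + 2) : (ZMod 2)[X]) ∣ 1 + X ^ (4 ^ r + 2 ^ r + 1) := by
  rw [fact1]
  refine (cop1 r).mul_dvd (lin_dvd _) ?_
  have h4 : (4 : ℕ) ^ r = 2 ^ r * 2 ^ r := by rw [← mul_pow]; norm_num
  have hQ : 2 ^ r ≠ 0 := by positivity
  have e1 : (1 + X ^ (4 ^ r + 2 ^ r + 1) : (ZMod 2)[X]) =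
      X ^ (2 ^ r * 2 ^ r) * (1 + X ^ (2 ^ r) + X ^ (2 ^ r + 1)) +
      (1 + X ^ (2 ^ r) + X ^ (2 ^ r + 1)) ^ (2 ^ r) := by
    rw [frob, frob, one_pow, ← pow_mul, ← pow_mul, h4]
    linear_combination (-(X ^ (2 ^ r * 2 ^ r) + X ^ (2 ^ r * 2 ^ r + 2 ^ r)) : (ZMod 2)[X]) * two_eq_zero
  rw [e1]
  exact dvd_add (Dvd.intro_left _ rfl) (dvd_pow_self _ hQ)

lemma dvd2 : (1 + X ^ 2 + X ^ (2 ^ r + 1) + X ^ (2 ^ r + 2) : (ZMod 2)[X]) ∣
    1 + X ^ (4 ^ r + 2 ^ r + 1) := by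
  rw [fact2]
  refine (cop2 r).mul_dvd (lin_dvd _) ?_
  have h4 : (4 : ℕ) ^ r = 2 ^ r * 2 ^ r := by rw [← mul_pow]; norm_num
  have hQ : 2 ^ r ≠ 0 := by positivity
  have e1 : (1 + X ^ (4 ^ r + 2 ^ r + 1) : (ZMod 2)[X]) =
      X * (1 + X + X ^ (2 ^ r + 1)) ^ (2 ^ r) + (1 + X + X ^ (2 ^ r + 1)) := by
    rw [frob, frob, one_pow, ← pow_mul, h4]
    linear_combination (-(X + X ^ (2 ^ r + 1)) : (ZMod 2)[X]) * two_eq_zero
  rw [e1]
  exact dvd_add (Dvd.dvd.mul_left (dvd_pow_self _ hQ) _) dvd_rfl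

/-- The field with `Q^3` elements. -/
lemma exists_field (hr : 1 ≤ r) : ∃ (K : Type) (_ : Field K) (_ : Fintype K) (_ : Algebra (ZMod 2) K) (_ : CharP K 2),
    Fintype.card K = (2 ^ r) ^ 3 := by
  have : Fact (Nat.Prime 2) := ⟨Nat.prime_two⟩
  letI : Fintype (GaloisField 2 (3 * r)) := Fintype.ofFinite _
  refine ⟨GaloisField 2 (3 * r), inferInstance, inferInstance, inferInstance, inferInstance, ?_⟩
  rw [← Nat.card_eq_fintype_card, GaloisField.card 2 (3 * r) (by omega), ← pow_mul]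
  congr 1; ring

lemma order1 (hr : 1 ≤ r) (e : ℕ)
    (h : (1 + X + X ^ (2 ^ r) + X ^ (2 ^ r + 2) : (ZMod 2)[X]) ∣ 1 + X ^ e) :
    4 ^ r + 2 ^ r + 1 ∣ e := by
  obtain ⟨K, _, _, _, _, hcard⟩ := exists_field r hr
  refine key r hr K hcard e fun γ hγ hT => ?_
  rw [fact1] at h
  have h1 : (1 + X ^ (2 ^ r) + X ^ (2 ^ r + 1) : (ZMod 2)[X]) ∣ 1 + X ^ e :=
    dvd_trans (Dvd.intro_left _ rfl) h
  obtain ⟨c, hc⟩ := h1
  have hγQ : γ ^ (2 ^ r) ≠ 0 := pow_ne_zero _ hγ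
  have h2 := congrArg (aeval (γ / γ ^ (2 ^ r))) hc
  simp only [map_add, map_one, map_pow, aeval_X, map_mul] at h2
  have h3 : 1 + (γ / γ ^ (2 ^ r)) ^ (2 ^ r) + (γ / γ ^ (2 ^ r)) ^ (2 ^ r + 1) = 0 := by
    have h5 : (γ ^ (2 ^ r)) ^ (2 ^ r) ≠ 0 := pow_ne_zero _ hγQ
    rw [pow_succ, div_pow]
    have h6 : (γ ^ (2 ^ r)) ^ (2 ^ r) = γ ^ (2 ^ r * 2 ^ r) := by rw [← pow_mul]
    rw [h6] at h5 ⊢
    field_simp
    linear_combination hT
  rw [h3, zero_mul, div_pow] at h2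
  have h4 : (γ ^ 2 ^ r) ^ e ≠ 0 := pow_ne_zero _ hγQ
  field_simp at h2
  have h2' : (2 : K) = 0 := CharTwo.two_eq_zero
  linear_combination h2 - γ ^ e * h2'

lemma order2 (hr : 1 ≤ r) (e : ℕ)
    (h : (1 + X ^ 2 + X ^ (2 ^ r + 1) + X ^ (2 ^ r + 2) : (ZMod 2)[X]) ∣ 1 + X ^ e) :
    4 ^ r + 2 ^ r + 1 ∣ e := by
  obtain ⟨K, _, _, _, _, hcard⟩ := exists_field r hr
  refine key r hr K hcard e fun γ hγ hT => ?_
  rw [fact2] at h
  have h1 : (1 + X + X ^ (2 ^ r + 1) : (ZMod 2)[X]) ∣ 1 + X ^ e :=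
    dvd_trans (Dvd.intro_left _ rfl) h
  obtain ⟨c, hc⟩ := h1
  have hγQ : γ ^ (2 ^ r) ≠ 0 := pow_ne_zero _ hγ
  have h2 := congrArg (aeval (γ ^ (2 ^ r) / γ)) hc
  simp only [map_add, map_one, map_pow, aeval_X, map_mul] at h2
  have h3 : 1 + (γ ^ (2 ^ r) / γ) + (γ ^ (2 ^ r) / γ) ^ (2 ^ r + 1) = 0 := by
    rw [pow_succ, div_pow]
    have h6 : (γ ^ (2 ^ r)) ^ (2 ^ r) = γ ^ (2 ^ r * 2 ^ r) := by rw [← pow_mul]
    rw [h6]
    field_simp
    linear_combination hT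
  rw [h3, zero_mul, div_pow] at h2
  have h4 : γ ^ e ≠ 0 := pow_ne_zero _ hγ
  field_simp at h2
  have h2' : (2 : K) = 0 := CharTwo.two_eq_zero
  linear_combination h2 - γ ^ e * h2'

/-- For every `r ≥ 1` (in particular for every `r ≥ 3`) the polynomials `1 + x + x^(2^r) + x^(2^r+2)` and
`1 + x^2 + x^(2^r+1) + x^(2^r+2)` over `F_2` have order exactly `4^r + 2^r + 1`. -/
theorem result (r : ℕ) (hr : 1 ≤ r) :
    HasOrder (1 + X + X ^ (2 ^ r) + X ^ (2 ^ r + 2)) (4 ^ r + 2 ^ r + 1) ∧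
    HasOrder (1 + X ^ 2 + X ^ (2 ^ r + 1) + X ^ (2 ^ r + 2)) (4 ^ r + 2 ^ r + 1) :=
  ⟨⟨⟨by positivity, dvd1 r⟩, fun m hm => Nat.le_of_dvd hm.1 (order1 r hr m hm.2)⟩,
    ⟨⟨by positivity, dvd2 r⟩, fun m hm => Nat.le_of_dvd hm.1 (order2 r hr m hm.2)⟩⟩

end Pool.Agent.Results.MP_9cbaed_nt.ExactOrder
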